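import Pool.Agent.H58.JU.Targets

/-! MP_6a7a6f_gt, board jun: the final inequality. -/

namespace Pool.Agent.H11.JU

open Pool.Agent.H58.JU

theorem NUM_poly {d ρ : ℝ} (hd : 4 ≤ d) (hρ : 0 ≤ ρ) (hdρ : d * ρ ≤ 1) :
    (6 * d - 2) * ((1 - ρ) * ((1 - ρ) / 2) + ρ * ρ) - 2 * (d - 1) ≤ (d + 1) * (1 - ρ) ^ 4 := by
  have hd0 : 0 < d := by linarith
  have h1 : 0 ≤ (d - 3) * (2 - 3 * ρ) - (d + 1) * (4 * ρ ^ 2 - ρ ^ 3) := by
    have h2 : 0 ≤ d ^ 2 * ((d - 3) * (2 - 3 * ρ) - 4 * (d + 1) * ρ ^ 2) := by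
      have h3 : (d - 3) * (2 * d ^ 2 - 3 * d) - 4 * (d + 1) ≤
          d ^ 2 * ((d - 3) * (2 - 3 * ρ) - 4 * (d + 1) * ρ ^ 2) := by
        have h4 : 0 ≤ d * ρ := by positivity
        have h5 : (d * ρ) ^ 2 ≤ 1 := by nlinarith
        have h6 : 0 ≤ (d - 3) * d * (1 - d * ρ) := by
          apply mul_nonneg
          · apply mul_nonneg <;> linarith
          · linarith
        have h7 : 0 ≤ (d + 1) * (1 - (d * ρ) ^ 2) := by
          apply mul_nonneg <;> linarith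
        linear_combination 3 * h6 + 4 * h7
      obtain ⟨e, he⟩ : ∃ e, d = e + 4 := ⟨d - 4, by ring⟩
      have he0 : 0 ≤ e := by linarith
      have h8 : (d - 3) * (2 * d ^ 2 - 3 * d) - 4 * (d + 1) = 2 * e ^ 3 + 15 * e ^ 2 + 29 * e := by
        rw [he]; ring
      have h9 : 0 ≤ 2 * e ^ 3 + 15 * e ^ 2 + 29 * e := by positivity
      linarith
    have h3 : 0 ≤ (d - 3) * (2 - 3 * ρ) - 4 * (d + 1) * ρ ^ 2 :=
      nonneg_of_mul_nonneg_right h2 (by positivity)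
    have h4 : 0 ≤ (d + 1) * ρ ^ 3 := by positivity
    linarith
  have h2 := mul_nonneg hρ h1
  linear_combination h2

theorem pf_NUM : T_NUM := by
  intro d ρ s Q hd hρ hρ1 h1 h2 h3 h4
  have hd0 : 0 < d := by linarith
  obtain ⟨k, hk⟩ : ∃ k, k = (d - 1) / (2 * d) := ⟨_, rfl⟩
  rw [← hk]
  have hdk : 2 * d * k = d - 1 := by
    rw [hk]
    field_simp
  rcases le_or_gt s k with h | h
  · have hs : s ≤ 1 / 2 := by linarith
    have h5 : 0 ≤ (1 - s) * (k - s) := mul_nonneg (by linarith) (by linarith)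
    nlinarith
  · have hdρ : d * ρ ≤ 1 := by
      have h5 : 2 * d * k ≤ 2 * d * ((1 - ρ) / 2) :=
        mul_le_mul_of_nonneg_left (by linarith) (by linarith)
      linarith
    have h6 := NUM_poly hd hρ hdρ
    have hk0 : 0 ≤ k := by
      rw [hk]
      apply div_nonneg <;> linarith
    have h7 : (1 + k) * s - k ≤ (1 + k) * ((1 - ρ) * ((1 - ρ) / 2) + ρ * ρ) - k := by
      have := mul_le_mul_of_nonneg_left h2 (by linarith : (0 : ℝ) ≤ 1 + k)
      linarith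
    have h8 : (1 + k) * ((1 - ρ) * ((1 - ρ) / 2) + ρ * ρ) - k ≤
        (1 - ρ) ^ 4 * ((d + 1) / (4 * d)) := by
      have h9 : 4 * d * ((1 + k) * ((1 - ρ) * ((1 - ρ) / 2) + ρ * ρ) - k) ≤
          4 * d * ((1 - ρ) ^ 4 * ((d + 1) / (4 * d))) := by
        have e1 : 4 * d * ((1 + k) * ((1 - ρ) * ((1 - ρ) / 2) + ρ * ρ) - k) =
            (6 * d - 2) * ((1 - ρ) * ((1 - ρ) / 2) + ρ * ρ) - 2 * (d - 1) := by
          linear_combination (2 * ((1 - ρ) * ((1 - ρ) / 2) + ρ * ρ) - 2) * hdk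
        have e2 : 4 * d * ((1 - ρ) ^ 4 * ((d + 1) / (4 * d))) = (d + 1) * (1 - ρ) ^ 4 := by
          field_simp
        rw [e1, e2]
        exact h6
      exact le_of_mul_le_mul_left h9 (by positivity)
    linarith

end Pool.Agent.H11.JU
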